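import Pool.Agent.helper31.WB.NDefs
import Pool.Agent.helper21.WB.LibB5
import Pool.Agent.helper51.WB.N0
import Pool.Agent.helper22.WB.N1

/-! PART N, module N5 (MP_7b8095_gt): expected number of bad pairs.  helper67 -/

set_option autoImplicit false
open Matrix MeasureTheory

namespace Pool.Agent.helper21.WB.NN

namespace N5

/-- the summand of `W` -/
noncomputable def K (S : Set X) (m : ℝ) {N : ℕ} (x : Fin N → X) : ENNReal :=
  ENNReal.ofReal m + 2 * ∑ a, S.indicator 1 (x a)

theorem measurable_K {S : Set X} (hS : MeasurableSet S) (m : ℝ) {N : ℕ} :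
    Measurable (fun x : Fin N → X => K S m x) := by
  unfold K
  have h : Measurable (fun x : Fin N → X => ∑ a, S.indicator (1 : X → ENNReal) (x a)) := by
    refine Finset.measurable_sum _ (fun a _ => ?_)
    exact (measurable_one.indicator hS).comp (measurable_pi_apply a)
  exact measurable_const.add (h.const_mul 2)

theorem measurableSet_avoid {s : Set X} (hs : MeasurableSet s) (N : ℕ) :
    MeasurableSet {x : Fin N → X | ∀ a, x a ∉ s} := by
  have : {x : Fin N → X | ∀ a, x a ∉ s} = ⋂ a, (fun x : Fin N → X => x a) ⁻¹' sᶜ := by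
    ext x; simp
  rw [this]
  exact MeasurableSet.iInter (fun a => (measurable_pi_apply a) hs.compl)

theorem lint_coord (ν : Measure X) [IsProbabilityMeasure ν] (M : ℕ) (a : Fin (M + 1))
    {S : Set X} (hS : MeasurableSet S) :
    ∫⁻ x, S.indicator 1 (x a) ∂(Measure.pi fun _ : Fin (M + 1) => ν) = ν S := by
  have h := lint_one ν M a (S.indicator 1) (measurable_one.indicator hS) ∅ MeasurableSet.empty
  have e : {x : Fin (M + 1) → X | ∀ c, c ≠ a → x c ∉ (∅ : Set X)} = Set.univ := by
    ext x; simp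
  rw [e] at h
  simp only [Set.indicator_univ, Pi.one_apply, mul_one, Set.compl_empty, measure_univ, one_pow] at h
  rw [h, lintegral_indicator_one hS]

theorem lint_K (ν : Measure X) [IsProbabilityMeasure ν] (M : ℕ) (m : ℝ)
    {S : Set X} (hS : MeasurableSet S) :
    ∫⁻ x, K S m x ∂(Measure.pi fun _ : Fin (M + 1) => ν) =
      ENNReal.ofReal m + 2 * ((M + 1) * ν S) := by
  unfold K
  rw [lintegral_add_left measurable_const, lintegral_const, measure_univ, mul_one,
    lintegral_const_mul, lintegral_finsetSum]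
  · simp only [lint_coord ν M _ hS]
    simp
  · intro a _
    exact (measurable_one.indicator hS).comp (measurable_pi_apply a)
  · refine Finset.measurable_sum _ (fun a _ => ?_)
    exact (measurable_one.indicator hS).comp (measurable_pi_apply a)

theorem lint_avoid (ν : Measure X) [IsProbabilityMeasure ν] (M : ℕ) (m : ℝ)
    {S s : Set X} (hS : MeasurableSet S) (hs : MeasurableSet s) :
    ∫⁻ x, {x : Fin (M + 1) → X | ∀ a, x a ∉ s}.indicator (fun x => K S m x) x
      ∂(Measure.pi fun _ : Fin (M + 1) => ν) ≤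
      (ENNReal.ofReal m + 2 * ((M + 1) * ν S)) * (ν sᶜ) ^ M := by
  have hav := measurableSet_avoid hs (M + 1)
  have hone : ∀ a, Measurable (fun x : Fin (M + 1) → X => S.indicator (1 : X → ENNReal) (x a)) :=
    fun a => (measurable_one.indicator hS).comp (measurable_pi_apply a)
  have hset : ∀ a, MeasurableSet {x : Fin (M + 1) → X | ∀ c, c ≠ a → x c ∉ s} := by
    intro a
    have : {x : Fin (M + 1) → X | ∀ c, c ≠ a → x c ∉ s}
        = ⋂ c, ⋂ (_ : c ≠ a), (fun x : Fin (M + 1) → X => x c) ⁻¹' sᶜ := by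
      ext x; simp
    rw [this]
    exact MeasurableSet.iInter (fun c => MeasurableSet.iInter
      (fun _ => (measurable_pi_apply c) hs.compl))
  have hpt : ∀ x : Fin (M + 1) → X,
      {x : Fin (M + 1) → X | ∀ a, x a ∉ s}.indicator (fun x => K S m x) x ≤
      {x : Fin (M + 1) → X | ∀ a, x a ∉ s}.indicator (fun _ => ENNReal.ofReal m) x +
      2 * ∑ a, S.indicator 1 (x a) *
        {x : Fin (M + 1) → X | ∀ c, c ≠ a → x c ∉ s}.indicator 1 x := by
    intro x
    by_cases hx : x ∈ {x : Fin (M + 1) → X | ∀ a, x a ∉ s}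
    · rw [Set.indicator_of_mem hx, Set.indicator_of_mem hx]
      unfold K
      gcongr with a _
      rw [Set.indicator_of_mem (show x ∈ {x : Fin (M + 1) → X | ∀ c, c ≠ a → x c ∉ s} from
        fun c _ => hx c)]
      simp
    · rw [Set.indicator_of_notMem hx]; exact zero_le
  refine (lintegral_mono hpt).trans ?_
  rw [lintegral_add_left (measurable_const.indicator hav),
    lintegral_indicator_const hav, lintegral_const_mul, lintegral_finsetSum]
  · rw [add_mul]
    refine add_le_add ?_ ?_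
    · rw [pi_all ν (M + 1) s, pow_succ]
      have h1 : ν sᶜ ≤ 1 := prob_le_one
      calc ENNReal.ofReal m * (ν sᶜ ^ M * ν sᶜ) ≤ ENNReal.ofReal m * (ν sᶜ ^ M * 1) := by gcongr
        _ = ENNReal.ofReal m * ν sᶜ ^ M := by rw [mul_one]
    · have h2 : ∀ a : Fin (M + 1), ∫⁻ x, S.indicator 1 (x a) *
          {x : Fin (M + 1) → X | ∀ c, c ≠ a → x c ∉ s}.indicator 1 x
          ∂(Measure.pi fun _ : Fin (M + 1) => ν) = ν S * (ν sᶜ) ^ M := by
        intro a
        rw [lint_one ν M a (S.indicator 1) (measurable_one.indicator hS) s hs,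
          lintegral_indicator_one hS]
      simp only [h2]
      rw [Finset.sum_const, Finset.card_univ, Fintype.card_fin, nsmul_eq_mul]
      push_cast
      ring_nf
      exact le_rfl
  · intro a _
    exact (hone a).mul (measurable_one.indicator (hset a))
  · refine Finset.measurable_sum _ (fun a _ => ?_)
    exact (hone a).mul (measurable_one.indicator (hset a))

theorem pow_bound {ν : Measure X} [IsProbabilityMeasure ν] {s : Set X} (hs : MeasurableSet s)
    {p : ℝ} (hp : ENNReal.ofReal p ≤ ν s) (M : ℕ) :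
    (ν sᶜ) ^ M ≤ ENNReal.ofReal (Real.exp (-(M * p))) := by
  have h1 : ν sᶜ ≤ ENNReal.ofReal (Real.exp (-p)) := by
    rw [prob_compl_eq_one_sub hs]
    calc 1 - ν s ≤ 1 - ENNReal.ofReal p := by gcongr
      _ = ENNReal.ofReal 1 - ENNReal.ofReal p := by rw [ENNReal.ofReal_one]
      _ ≤ ENNReal.ofReal (1 - p) := by
          by_cases h0 : 0 ≤ p
          · rw [ENNReal.ofReal_sub _ h0]
          · rw [ENNReal.ofReal_of_nonpos (le_of_not_ge h0), tsub_zero]
            exact ENNReal.ofReal_le_ofReal (by linarith)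
      _ ≤ ENNReal.ofReal (Real.exp (-p)) := by
          refine ENNReal.ofReal_le_ofReal ?_
          have := Real.add_one_le_exp (-p)
          linarith
  calc (ν sᶜ) ^ M ≤ (ENNReal.ofReal (Real.exp (-p))) ^ M := by gcongr
    _ = ENNReal.ofReal (Real.exp (-(M * p))) := by
        rw [← ENNReal.ofReal_pow (Real.exp_pos _).le, ← Real.exp_nat_mul]
        congr 2; ring

end N5

open N5

open Classical in
theorem lint_W {Γ : Subgroup GLI} {F : Set X} (hL : Lat Γ F) {D m : ℝ} (hD : 1 ≤ D) (hm : 0 ≤ m)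
    (Z : Finset X) (M : ℕ) :
    Measurable (fun x : Fin (M + 1) → X => W Γ D Z m x) ∧
    ∫⁻ x, W Γ D Z m x ∂(PN F (M + 1)) ≤
      ENNReal.ofReal ((((Z.filter (fun z => z ∉ Th Γ (12 * D))).card : ℝ) +
        Z.card * Real.exp (-(M / (μ F).toReal * vb (D / 40)))) *
        (m + 2 * (M + 1) * vb D / (μ F).toReal)) := by
  have hΓ : Disc Γ := hL.toDisc
  haveI : IsProbabilityMeasure (nu F) := isProb_nu hL
  have hS : ∀ (z : X) (r : ℝ), MeasurableSet (Sat Γ (bl0 z r)) :=
    fun z r => measurableSet_Sat hΓ (measurableSet_bl0 z r)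
  -- rewriting the summands
  have hterm : ∀ (z : X) (x : Fin (M + 1) → X),
      (if z ∉ Th Γ (12 * D) ∨ ∀ a, x a ∉ Sat Γ (bl0 z (D / 40)) then
        ENNReal.ofReal m + 2 * ∑ a, (if x a ∈ Sat Γ (bl0 z D) then 1 else 0) else 0) =
      if z ∈ Th Γ (12 * D) then
        {x : Fin (M + 1) → X | ∀ a, x a ∉ Sat Γ (bl0 z (D / 40))}.indicator
          (fun x => K (Sat Γ (bl0 z D)) m x) x
      else K (Sat Γ (bl0 z D)) m x := by
    intro z x
    by_cases hz : z ∈ Th Γ (12 * D)
    · rw [if_pos hz]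
      by_cases hx : ∀ a, x a ∉ Sat Γ (bl0 z (D / 40))
      · rw [if_pos (Or.inr hx), Set.indicator_of_mem (show x ∈ {x : Fin (M + 1) → X |
          ∀ a, x a ∉ Sat Γ (bl0 z (D / 40))} from hx)]
        unfold K
        simp only [Set.indicator_apply, Pi.one_apply]
      · rw [if_neg (by rintro (h | h); exacts [h hz, hx h]),
          Set.indicator_of_notMem (show x ∉ {x : Fin (M + 1) → X |
          ∀ a, x a ∉ Sat Γ (bl0 z (D / 40))} from hx)]
    · rw [if_neg hz, if_pos (Or.inl hz)]
      unfold K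
      simp only [Set.indicator_apply, Pi.one_apply]
  have hWeq : (fun x : Fin (M + 1) → X => W Γ D Z m x) = fun x => ∑ z ∈ Z,
      (if z ∈ Th Γ (12 * D) then
        {x : Fin (M + 1) → X | ∀ a, x a ∉ Sat Γ (bl0 z (D / 40))}.indicator
          (fun x => K (Sat Γ (bl0 z D)) m x) x
      else K (Sat Γ (bl0 z D)) m x) := by
    funext x
    unfold W
    exact Finset.sum_congr rfl (fun z _ => by convert hterm z x)
  have hmeas : ∀ z : X, Measurable (fun x : Fin (M + 1) → X =>
      (if z ∈ Th Γ (12 * D) then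
        {x : Fin (M + 1) → X | ∀ a, x a ∉ Sat Γ (bl0 z (D / 40))}.indicator
          (fun x => K (Sat Γ (bl0 z D)) m x) x
      else K (Sat Γ (bl0 z D)) m x)) := by
    intro z
    by_cases hz : z ∈ Th Γ (12 * D)
    · simp only [if_pos hz]
      exact (measurable_K (hS z D) m).indicator (measurableSet_avoid (hS z _) _)
    · simp only [if_neg hz]
      exact measurable_K (hS z D) m
  have hv0 : 0 < μ F := fd_nonempty hΓ hL.fd
  have hv : 0 < (μ F).toReal := ENNReal.toReal_pos hv0.ne' hL.fin.ne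
  have hvD : 0 ≤ vb D := ENNReal.toReal_nonneg
  have hvD' : 0 ≤ vb (D / 40) := ENNReal.toReal_nonneg
  -- the bound for the probability of hitting a ball
  have hdiv : ∀ r : ℝ, 0 ≤ r → ENNReal.ofReal r / μ F = ENNReal.ofReal (r / (μ F).toReal) := by
    intro r hr
    rw [ENNReal.ofReal_div_of_pos hv, ENNReal.ofReal_toReal hL.fin.ne]
  have hp : ∀ z : X, nu F (Sat Γ (bl0 z D)) ≤ ENNReal.ofReal (vb D / (μ F).toReal) := by
    intro z
    rw [← hdiv _ hvD]
    refine (nu_Sat_le hL (measurableSet_bl0 z D)).trans ?_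
    unfold bl0
    rw [μ_hball]
  have hC : ∀ z : X, ENNReal.ofReal m + 2 * ((M + 1) * nu F (Sat Γ (bl0 z D))) ≤
      ENNReal.ofReal (m + 2 * (M + 1) * vb D / (μ F).toReal) := by
    intro z
    have e : m + 2 * (M + 1) * vb D / (μ F).toReal
        = m + 2 * ((M + 1) * (vb D / (μ F).toReal)) := by ring
    have h0 : 0 ≤ vb D / (μ F).toReal := by positivity
    rw [e, ENNReal.ofReal_add hm (by positivity), ENNReal.ofReal_mul (by norm_num),
      ENNReal.ofReal_mul (by positivity)]
    have e2 : ENNReal.ofReal ((M : ℝ) + 1) = (M : ENNReal) + 1 := by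
      rw [ENNReal.ofReal_add (by positivity) (by norm_num), ENNReal.ofReal_natCast,
        ENNReal.ofReal_one]
    have e3 : ENNReal.ofReal 2 = 2 := by simp
    rw [e2, e3]
    gcongr
    exact hp z
  set Kc : ℝ := m + 2 * (M + 1) * vb D / (μ F).toReal with hKc
  have hKc0 : 0 ≤ Kc := by positivity
  set ec : ℝ := Real.exp (-(M / (μ F).toReal * vb (D / 40))) with hec
  have hec0 : 0 ≤ ec := (Real.exp_pos _).le
  have hbad : ∀ z : X, z ∉ Th Γ (12 * D) →
      ∫⁻ x, K (Sat Γ (bl0 z D)) m x ∂(PN F (M + 1)) ≤ ENNReal.ofReal Kc := by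
    intro z _
    unfold PN
    rw [lint_K (nu F) M m (hS z D)]
    exact hC z
  have hgood : ∀ z : X, z ∈ Th Γ (12 * D) →
      ∫⁻ x, {x : Fin (M + 1) → X | ∀ a, x a ∉ Sat Γ (bl0 z (D / 40))}.indicator
          (fun x => K (Sat Γ (bl0 z D)) m x) x ∂(PN F (M + 1)) ≤
        ENNReal.ofReal (Kc * ec) := by
    intro z hz
    unfold PN
    refine (lint_avoid (nu F) M m (hS z D) (hS z _)).trans ?_
    rw [ENNReal.ofReal_mul hKc0]
    refine mul_le_mul' (hC z) ?_
    have hz' : z ∈ Th Γ (2 * (D / 40)) := by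
      intro γ hγ h1
      have := hz γ hγ h1
      linarith
    have h1 := le_nu_Sat hL (measurableSet_bl0 z (D / 40)) hz' subset_rfl
    have h2 : ENNReal.ofReal (vb (D / 40) / (μ F).toReal) ≤ nu F (Sat Γ (bl0 z (D / 40))) := by
      rw [← hdiv _ hvD']
      refine le_trans (le_of_eq ?_) h1
      unfold bl0
      rw [μ_hball]
    refine (pow_bound (hS z _) h2 M).trans (le_of_eq ?_)
    rw [hec]
    congr 2; ring
  constructor
  · rw [hWeq]
    exact Finset.measurable_sum _ (fun z _ => hmeas z)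
  · have e : ∀ x : Fin (M + 1) → X, W Γ D Z m x = ∑ z ∈ Z,
      (if z ∈ Th Γ (12 * D) then
        {x : Fin (M + 1) → X | ∀ a, x a ∉ Sat Γ (bl0 z (D / 40))}.indicator
          (fun x => K (Sat Γ (bl0 z D)) m x) x
      else K (Sat Γ (bl0 z D)) m x) := fun x => congrFun hWeq x
    simp only [e]
    rw [lintegral_finsetSum _ (fun z _ => hmeas z)]
    have hz : ∀ z ∈ Z, ∫⁻ x, (if z ∈ Th Γ (12 * D) then
        {x : Fin (M + 1) → X | ∀ a, x a ∉ Sat Γ (bl0 z (D / 40))}.indicator
          (fun x => K (Sat Γ (bl0 z D)) m x) x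
      else K (Sat Γ (bl0 z D)) m x) ∂(PN F (M + 1)) ≤
        ENNReal.ofReal (((if z ∉ Th Γ (12 * D) then 1 else 0) + ec) * Kc) := by
      intro z _
      by_cases h : z ∈ Th Γ (12 * D)
      · simp only [if_pos h]
        refine (hgood z h).trans (ENNReal.ofReal_le_ofReal ?_)
        rw [if_neg (not_not.2 h)]
        linarith [mul_comm Kc ec]
      · simp only [if_neg h]
        refine (hbad z h).trans (ENNReal.ofReal_le_ofReal ?_)
        rw [if_pos h]
        nlinarith [mul_nonneg hec0 hKc0]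
    refine (Finset.sum_le_sum hz).trans ?_
    rw [← ENNReal.ofReal_sum_of_nonneg]
    · refine ENNReal.ofReal_le_ofReal (le_of_eq ?_)
      rw [← Finset.sum_mul, Finset.sum_add_distrib, Finset.sum_const, nsmul_eq_mul,
        Finset.sum_boole]
    · intro z _
      refine mul_nonneg (add_nonneg ?_ hec0) hKc0
      split_ifs <;> norm_num

end Pool.Agent.helper21.WB.NN
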